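import Mathlib

/-!
# A semi-Eberlein compact subspace of a cube without decompositions

`I` is the disjoint union of the real line and of the family of its countable subsets, and `K` is
the set of all `z : I → {0, 1}` with `z C ≤ z a` whenever `a` lies in the countable set `C`.
-/

set_option autoImplicit false

open Set Topology

namespace Pool.Agent.Results.MP_abc717_gt.NoDecomposition

/-- The points of the cube `[-1, 1] ^ I` with countable support. -/
def SigmaSet (I : Type) : Set (I → ℝ) :=
  {x | (∀ i, x i ∈ Icc (-1 : ℝ) 1) ∧ {i | x i ≠ 0}.Countable}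

/-- The elements of `c₀ (Γ)`. -/
def CZero (Γ : Type) : Set (Γ → ℝ) := {x | ∀ ε : ℝ, 0 < ε → {γ | ε < |x γ|}.Finite}

/-- A compact Hausdorff space is semi-Eberlein if it embeds in a cube `[0, 1] ^ Γ` so that the
elements of `c₀ (Γ)` are dense in the image. -/
def SemiEberlein (K : Type) [TopologicalSpace K] : Prop :=
  CompactSpace K ∧ T2Space K ∧ ∃ (Γ : Type) (h : K → (Γ → ℝ)), IsEmbedding h ∧
    (∀ k γ, h k γ ∈ Icc (0 : ℝ) 1) ∧ range h ⊆ closure (range h ∩ CZero Γ)

/-- the index set -/
abbrev I : Type := ℝ ⊕ {C : Set ℝ // C.Countable}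

/-- the compact set -/
def K : Set (I → ℝ) :=
  {z | (∀ i, z i = 0 ∨ z i = 1) ∧ ∀ (C : {C : Set ℝ // C.Countable}) (a : ℝ), a ∈ C.1 →
    z (Sum.inr C) ≤ z (Sum.inl a)}

lemma K_Icc {z : I → ℝ} (hz : z ∈ K) (i : I) : z i ∈ Icc (-1 : ℝ) 1 := by
  rcases hz.1 i with h | h <;> rw [h] <;> constructor <;> norm_num

lemma isClosed_K : IsClosed K := by
  have h1 : IsClosed {z : I → ℝ | ∀ i, z i = 0 ∨ z i = 1} := by
    simp only [ofPred_forall, ofPred_or]
    exact isClosed_iInter fun i => (isClosed_eq (continuous_apply i) continuous_const).union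
      (isClosed_eq (continuous_apply i) continuous_const)
  have h2 : IsClosed {z : I → ℝ | ∀ (C : {C : Set ℝ // C.Countable}) (a : ℝ), a ∈ C.1 →
      z (Sum.inr C) ≤ z (Sum.inl a)} := by
    simp only [ofPred_forall]
    exact isClosed_iInter fun C => isClosed_iInter fun a => isClosed_iInter fun _ =>
      isClosed_le (continuous_apply _) (continuous_apply _)
  exact h1.inter h2

lemma isCompact_K : IsCompact K := by
  have h : IsCompact (Set.pi univ fun _ : I => Icc (-1 : ℝ) 1) :=
    isCompact_univ_pi fun _ => isCompact_Icc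
  exact h.of_isClosed_subset isClosed_K fun z hz i _ => K_Icc hz i

/-- closure in a product: agreement on finite sets suffices -/
lemma mem_closure_of_finset {Γ : Type} {A : Set (Γ → ℝ)} {x : Γ → ℝ}
    (h : ∀ F : Finset Γ, ∃ y ∈ A, ∀ i ∈ F, y i = x i) : x ∈ closure A := by
  rw [mem_closure_iff]
  intro o ho hx
  rw [isOpen_pi_iff] at ho
  obtain ⟨F, u, hu, hFu⟩ := ho x hx
  obtain ⟨y, hy, hyx⟩ := h F
  refine ⟨y, hFu ?_, hy⟩
  intro i hi
  rw [hyx i hi]
  exact (hu i hi).2

open Classical in
/-- points of countable support in `K` -/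
noncomputable def cut (z : I → ℝ) (F : Finset I) : I → ℝ :=
  Sum.elim (fun a => if Sum.inl a ∈ F ∨ ∃ C : {C : Set ℝ // C.Countable}, Sum.inr C ∈ F ∧ a ∈ C.1
    then z (Sum.inl a) else 0) (fun C => if Sum.inr C ∈ F then z (Sum.inr C) else 0)

lemma cut_mem {z : I → ℝ} (hz : z ∈ K) (F : Finset I) : cut z F ∈ K := by
  classical
  constructor
  · rintro (a | C)
    · simp only [cut, Sum.elim_inl]
      split_ifs
      · exact hz.1 _
      · exact Or.inl rfl
    · simp only [cut, Sum.elim_inr]
      split_ifs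
      · exact hz.1 _
      · exact Or.inl rfl
  · intro C a ha
    simp only [cut, Sum.elim_inl, Sum.elim_inr]
    by_cases hC : Sum.inr C ∈ F
    · have h1 : Sum.inl a ∈ F ∨ ∃ C : {C : Set ℝ // C.Countable}, Sum.inr C ∈ F ∧ a ∈ C.1 :=
        Or.inr ⟨C, hC, ha⟩
      rw [if_pos hC, if_pos h1]
      exact hz.2 C a ha
    · rw [if_neg hC]
      split_ifs
      · rcases hz.1 (Sum.inl a) with h | h <;> rw [h]
        norm_num
      · exact le_rfl

lemma cut_countable (z : I → ℝ) (F : Finset I) : {i | cut z F i ≠ 0}.Countable := by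
  classical
  have h1 : (Sum.inl '' (⋃ C ∈ {C : {C : Set ℝ // C.Countable} | (Sum.inr C : I) ∈ F}, C.1) :
      Set I).Countable := by
    apply Countable.image
    apply Countable.biUnion
    · apply Set.Finite.countable
      apply Set.Finite.preimage (Sum.inr_injective.injOn)
      exact F.finite_toSet
    · intro C _
      exact C.2
  apply ((F.finite_toSet.countable).union h1).mono
  rintro (a | C) hi
  · simp only [mem_ofPred_eq, cut, Sum.elim_inl] at hi
    by_cases h : Sum.inl a ∈ F ∨ ∃ C : {C : Set ℝ // C.Countable}, Sum.inr C ∈ F ∧ a ∈ C.1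
    · rcases h with h | ⟨C, hC, ha⟩
      · exact Or.inl h
      · exact Or.inr ⟨a, mem_biUnion hC ha, rfl⟩
    · rw [if_neg h] at hi
      exact absurd rfl hi
  · simp only [mem_ofPred_eq, cut, Sum.elim_inr] at hi
    by_cases h : (Sum.inr C : I) ∈ F
    · exact Or.inl h
    · rw [if_neg h] at hi
      exact absurd rfl hi

lemma cut_eq (z : I → ℝ) (F : Finset I) (i : I) (hi : i ∈ F) : cut z F i = z i := by
  classical
  rcases i with a | C
  · simp only [cut, Sum.elim_inl]
    rw [if_pos (Or.inl hi)]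
  · simp only [cut, Sum.elim_inr]
    rw [if_pos hi]

/-- the second embedding -/
def flip (z : I → ℝ) : I → ℝ := Sum.elim (fun a => 1 - z (Sum.inl a)) (fun C => z (Sum.inr C))

lemma continuous_flip : Continuous flip := by
  apply continuous_pi
  rintro (a | C)
  · exact continuous_const.sub (continuous_apply _)
  · exact continuous_apply _

lemma flip_flip (z : I → ℝ) : flip (flip z) = z := by
  funext i
  rcases i with a | C <;> simp [flip]

open Classical in
/-- points of `K` whose image has finite support -/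
noncomputable def cutFin (z : I → ℝ) (F : Finset I) : I → ℝ :=
  Sum.elim (fun a => if Sum.inl a ∈ F then z (Sum.inl a) else 1)
    (fun C => if Sum.inr C ∈ F then z (Sum.inr C) else 0)

lemma cutFin_mem {z : I → ℝ} (hz : z ∈ K) (F : Finset I) : cutFin z F ∈ K := by
  classical
  constructor
  · rintro (a | C)
    · simp only [cutFin, Sum.elim_inl]
      split_ifs
      · exact hz.1 _
      · exact Or.inr rfl
    · simp only [cutFin, Sum.elim_inr]
      split_ifs
      · exact hz.1 _
      · exact Or.inl rfl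
  · intro C a ha
    have h0 : ∀ i, 0 ≤ z i := fun i => by rcases hz.1 i with h | h <;> rw [h]; norm_num
    have h1 : ∀ i, z i ≤ 1 := fun i => by rcases hz.1 i with h | h <;> rw [h]; norm_num
    simp only [cutFin, Sum.elim_inl, Sum.elim_inr]
    split_ifs
    · exact hz.2 C a ha
    · exact h1 _
    · exact h0 _
    · norm_num

lemma flip_cutFin_finite (z : I → ℝ) (F : Finset I) : {i | flip (cutFin z F) i ≠ 0}.Finite := by
  classical
  apply F.finite_toSet.subset
  rintro (a | C) hi
  · by_contra h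
    apply hi
    have h' : Sum.inl a ∉ F := h
    simp [flip, cutFin, h']
  · by_contra h
    apply hi
    have h' : Sum.inr C ∉ F := h
    simp [flip, cutFin, h']

lemma cutFin_eq (z : I → ℝ) (F : Finset I) (i : I) (hi : i ∈ F) :
    flip (cutFin z F) i = flip z i := by
  classical
  rcases i with a | C
  · simp [flip, cutFin, hi]
  · simp [flip, cutFin, hi]

lemma semiEberlein_K : SemiEberlein K := by
  refine ⟨isCompact_iff_compactSpace.1 isCompact_K, inferInstance, I, fun z => flip z.1, ?_, ?_, ?_⟩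
  · have hc : CompactSpace K := isCompact_iff_compactSpace.1 isCompact_K
    have hcont : Continuous (fun z : K => flip z.1) := continuous_flip.comp continuous_subtype_val
    refine (hcont.isClosedEmbedding ?_).isEmbedding
    intro z w hzw
    apply Subtype.ext
    rw [← flip_flip z.1, ← flip_flip w.1]
    exact congrArg flip hzw
  · rintro ⟨z, hz⟩ (a | C)
    · simp only [flip, Sum.elim_inl]
      rcases hz.1 (Sum.inl a) with h | h <;> rw [h] <;> norm_num
    · simp only [flip, Sum.elim_inr]
      rcases hz.1 (Sum.inr C) with h | h <;> rw [h] <;> norm_num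
  · rintro _ ⟨⟨z, hz⟩, rfl⟩
    apply mem_closure_of_finset
    intro F
    refine ⟨flip (cutFin z F), ⟨⟨⟨cutFin z F, cutFin_mem hz F⟩, rfl⟩, ?_⟩, ?_⟩
    · intro ε hε
      apply (flip_cutFin_finite z F).subset
      intro i hi h0
      have hi' : ε < |flip (cutFin z F) i| := hi
      rw [h0, abs_zero] at hi'
      exact lt_asymm hε hi'
    · intro i hi
      exact cutFin_eq z F i hi

lemma dense_K : K ⊆ closure (SigmaSet I ∩ K) := by
  intro z hz
  apply mem_closure_of_finset
  intro F
  exact ⟨cut z F, ⟨⟨K_Icc (cut_mem hz F), cut_countable z F⟩, cut_mem hz F⟩, cut_eq z F⟩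

lemma no_decomposition (D : Set (I → ℝ)) (hDK : D ⊆ K) (hD : K ⊆ closure D) (J : ℕ → Set I)
    (hJ : ⋃ n, J n = univ) : ∃ n, ∃ x ∈ D, {i | i ∈ J n ∧ (1 / 2 : ℝ) < |x i|}.Infinite := by
  classical
  -- one of the sets contains infinitely many reals
  have h1 : ∃ n, {a : ℝ | Sum.inl a ∈ J n}.Infinite := by
    by_contra hcon
    push Not at hcon
    have h2 : (⋃ n, {a : ℝ | Sum.inl a ∈ J n}) = univ := by
      rw [eq_univ_iff_forall]
      intro a
      have : (Sum.inl a : I) ∈ ⋃ n, J n := by rw [hJ]; trivial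
      obtain ⟨n, hn⟩ := mem_iUnion.1 this
      exact mem_iUnion.2 ⟨n, hn⟩
    have h3 : (univ : Set ℝ).Countable := by
      rw [← h2]
      exact countable_iUnion fun n => (hcon n).countable
    exact Cardinal.not_countable_real h3
  obtain ⟨n, hn⟩ := h1
  obtain ⟨C, hCsub, hCinf, hCc⟩ : ∃ C : Set ℝ, C ⊆ {a : ℝ | Sum.inl a ∈ J n} ∧ C.Infinite ∧
      C.Countable := by
    let e := hn.natEmbedding
    refine ⟨range fun k => (e k : ℝ), ?_, ?_, countable_range _⟩
    · rintro _ ⟨k, rfl⟩
      exact (e k).2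
    · exact infinite_range_of_injective (Subtype.val_injective.comp e.injective)
  let C' : {C : Set ℝ // C.Countable} := ⟨C, hCc⟩
  -- a point of `K` with coordinate `1` at `C'`
  let z : I → ℝ := Sum.elim (fun _ => 1) (fun B => if B = C' then 1 else 0)
  have hz : z ∈ K := by
    constructor
    · rintro (a | B)
      · exact Or.inr rfl
      · by_cases hB : B = C'
        · exact Or.inr (by simp [z, hB])
        · exact Or.inl (by simp [z, hB])
    · intro B a _
      by_cases hB : B = C'
      · simp [z, hB]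
      · simp [z, hB]
  have hzC : z (Sum.inr C') = 1 := by simp [z]
  obtain ⟨x, hx, hxD⟩ := mem_closure_iff.1 (hD hz) {x : I → ℝ | (0 : ℝ) < x (Sum.inr C')}
    (isOpen_lt continuous_const (continuous_apply _)) (by
      change (0 : ℝ) < z (Sum.inr C')
      rw [hzC]
      norm_num)
  have hxK := hDK hxD
  have hx1 : x (Sum.inr C') = 1 := (hxK.1 _).resolve_left (ne_of_gt hx)
  refine ⟨n, x, hxD, ?_⟩
  apply (hCinf.image (Sum.inl_injective (β := {C : Set ℝ // C.Countable})).injOn).mono
  rintro _ ⟨a, ha, rfl⟩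
  refine ⟨hCsub ha, ?_⟩
  have h2 : x (Sum.inr C') ≤ x (Sum.inl a) := hxK.2 C' a ha
  have h3 : x (Sum.inl a) = 1 := by
    refine (hxK.1 _).resolve_left ?_
    intro h0
    rw [hx1, h0] at h2
    norm_num at h2
  rw [h3]
  norm_num

theorem result : ∃ (I : Type) (K : Set (I → ℝ)), (∀ x ∈ K, ∀ i, x i ∈ Icc (-1 : ℝ) 1) ∧
    IsCompact K ∧ SemiEberlein K ∧ K ⊆ closure (SigmaSet I ∩ K) ∧
    ∀ D ⊆ SigmaSet I ∩ K, K ⊆ closure D → ∃ ε : ℝ, 0 < ε ∧ ∀ J : ℕ → Set I, ⋃ n, J n = univ →
      ∃ n, ∃ x ∈ D, {i | i ∈ J n ∧ ε < |x i|}.Infinite :=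
  ⟨I, K, fun _ hx i => K_Icc hx i, isCompact_K, semiEberlein_K, dense_K,
    fun D hD hDc => ⟨1 / 2, by norm_num, fun J hJ =>
      no_decomposition D (fun _ hx => (hD hx).2) hDc J hJ⟩⟩

end Pool.Agent.Results.MP_abc717_gt.NoDecomposition
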